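import Pool.Agent.Y201.LI.Stm3
import Pool.Agent.Y201.C3.Tri

/-!
# The projection of a smooth cubic hypersurface from a point has no rational section
-/

set_option autoImplicit false

namespace Pool.Agent.Y624.LI

open MvPolynomial Pool.Agent.Y201.C3 Pool.Agent.Y201.LI

noncomputable section

/-- the expansion of a cubic form on a line -/
theorem cubic_expand {σ : Type} [Fintype σ] [DecidableEq σ] {R : Type} [CommRing R] [Algebra ℂ R]
    {T : σ → σ → σ → ℂ} (hT : SymG T) (W V : R) (x y : σ → R) :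
    Bg T (fun i => W * x i + V * y i) (fun i => W * x i + V * y i) (fun i => W * x i + V * y i) =
      W ^ 3 * Bg T x x x + 3 * W ^ 2 * V * Bg T x x y + 3 * W * V ^ 2 * Bg T x y y +
        V ^ 3 * Bg T y y y := by
  have a1 : ∀ y' z' : σ → R, Bg T (fun i => W * x i + V * y i) y' z' =
      W * Bg T x y' z' + V * Bg T y y' z' := fun y' z' => by
    rw [Bg_add1 T (fun i => W * x i) (fun i => V * y i), Bg_smul1, Bg_smul1]
  have a2 : ∀ y' z' : σ → R, Bg T y' (fun i => W * x i + V * y i) z' =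
      W * Bg T y' x z' + V * Bg T y' y z' := fun y' z' => by
    rw [Bg_add2 T y' (fun i => W * x i) (fun i => V * y i), Bg_smul2, Bg_smul2]
  have a3 : ∀ y' z' : σ → R, Bg T y' z' (fun i => W * x i + V * y i) =
      W * Bg T y' z' x + V * Bg T y' z' y := fun y' z' => by
    rw [Bg_add3 T y' z' (fun i => W * x i) (fun i => V * y i), Bg_smul3, Bg_smul3]
  rw [a1, a2, a2, a3, a3, a3, a3]
  rw [Bg_swap12 hT y x y, Bg_swap12 hT y x x, Bg_swap23 hT x y x, Bg_swap23 hT y y x,
    Bg_swap12 hT y x y]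
  ring

theorem totalDegree_le_two_of_sq {r : ℕ} {m q : MvPolynomial (Fin r) ℂ} (h : m ^ 2 = q)
    (hq : q.totalDegree ≤ 4) : m.totalDegree ≤ 2 := by
  rcases eq_or_ne m 0 with rfl | hm
  · simp
  · have h1 : (m * m).totalDegree = m.totalDegree + m.totalDegree :=
      totalDegree_mul_of_isDomain hm hm
    rw [← sq, h] at h1
    omega

/-- job NOPT: the projection from a point of a smooth cubic hypersurface has no section -/
theorem nopt : S_NOPT := by
  classical
  intro r F hF hirr hsm p hp hpF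
  rintro ⟨V', W, hW, h0⟩
  obtain ⟨T, hT, hFT⟩ := exists_tri F hF
  set V : MvPolynomial (Fin r) ℂ := V' 0 with hV
  set P : Fin r → MvPolynomial (Fin r) ℂ := fun i => C (p i) with hP
  have h1 : aeval (fun i => W * X i + V * P i) F = 0 := by
    rw [← h0]
    congr 1
    simp [hV, hP]
  set b : MvPolynomial (Fin r) ℂ := Bg T X X P with hb
  set l : MvPolynomial (Fin r) ℂ := Bg T X P P with hl
  have hPPP : Bg T P P P = 0 := by
    have h2 : Bg T P P P = algebraMap ℂ (MvPolynomial (Fin r) ℂ) (Bg T p p p) := Bg_alg T p p p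
    have h3 : Bg T p p p = aeval p F := by
      rw [hFT, aeval_frmG]
    have h4 : aeval p F = eval p F := rfl
    rw [h2, h3, h4, hpF, map_zero]
  have h5 : W ^ 3 * F + 3 * W ^ 2 * V * b + 3 * W * V ^ 2 * l = 0 := by
    have h6 := cubic_expand hT W V (X : Fin r → MvPolynomial (Fin r) ℂ) P
    rw [hPPP, mul_zero, add_zero, ← hFT, ← hb, ← hl] at h6
    rw [← h6]
    have h7 : aeval (fun i => W * X i + V * P i) (Bg T X X X : MvPolynomial (Fin r) ℂ) = 0 := by
      rw [← hFT]
      exact h1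
    rw [aeval_frmG] at h7
    exact h7
  have h8 : W ^ 2 * F + 3 * W * V * b + 3 * V ^ 2 * l = 0 := by
    have h9 : W * (W ^ 2 * F + 3 * W * V * b + 3 * V ^ 2 * l) = 0 := by
      rw [← h5]
      ring
    exact (mul_eq_zero.1 h9).resolve_left hW
  have h10 : (6 * l * V + 3 * b * W) ^ 2 = W ^ 2 * (9 * b ^ 2 - 12 * F * l) := by
    linear_combination (12 * l) * h8
  have h11 : W ∣ 6 * l * V + 3 * b * W := by
    have h12 : W ^ 2 ∣ (6 * l * V + 3 * b * W) ^ 2 := ⟨_, h10⟩
    exact (IsIntegrallyClosed.pow_dvd_pow_iff (by norm_num)).1 h12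
  obtain ⟨m, hm⟩ := h11
  have h13 : m ^ 2 = 9 * b ^ 2 - 12 * F * l := by
    rw [hm, mul_pow] at h10
    exact mul_left_cancel₀ (pow_ne_zero 2 hW) h10
  have hbh : b.IsHomogeneous 2 := by
    rw [hb]
    unfold Bg
    refine IsHomogeneous.sum _ _ _ fun i _ => IsHomogeneous.sum _ _ _ fun j _ =>
      IsHomogeneous.sum _ _ _ fun k _ => ?_
    have h14 := (((isHomogeneous_C (Fin r) (T i j k)).mul (isHomogeneous_X ℂ i)).mul
      (isHomogeneous_X ℂ j)).mul (isHomogeneous_C (Fin r) (p k))
    exact h14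
  have hlh : l.IsHomogeneous 1 := by
    rw [hl]
    unfold Bg
    refine IsHomogeneous.sum _ _ _ fun i _ => IsHomogeneous.sum _ _ _ fun j _ =>
      IsHomogeneous.sum _ _ _ fun k _ => ?_
    have h14 := (((isHomogeneous_C (Fin r) (T i j k)).mul (isHomogeneous_X ℂ i)).mul
      (isHomogeneous_C (Fin r) (p j))).mul (isHomogeneous_C (Fin r) (p k))
    exact h14
  have h9b : (9 * b ^ 2 : MvPolynomial (Fin r) ℂ).IsHomogeneous 4 := by
    have h15 := (isHomogeneous_C (Fin r) (9 : ℂ)).mul (hbh.pow 2)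
    rwa [show (C (9 : ℂ) : MvPolynomial (Fin r) ℂ) = 9 from map_ofNat C 9] at h15
  have h12l : (12 * F * l : MvPolynomial (Fin r) ℂ).IsHomogeneous 4 := by
    have h15 := ((isHomogeneous_C (Fin r) (12 : ℂ)).mul hF).mul hlh
    rwa [show (C (12 : ℂ) : MvPolynomial (Fin r) ℂ) = 12 from map_ofNat C 12] at h15
  have hmd : m.totalDegree ≤ 2 :=
    totalDegree_le_two_of_sq h13 ((h9b.sub h12l).totalDegree_le)
  have h3b : (3 * b : MvPolynomial (Fin r) ℂ).totalDegree ≤ 2 := by
    have h15 := (isHomogeneous_C (Fin r) (3 : ℂ)).mul hbh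
    rw [show (C (3 : ℂ) : MvPolynomial (Fin r) ℂ) = 3 from map_ofNat C 3] at h15
    exact h15.totalDegree_le
  have hprod : (3 * b - m) * (3 * b + m) = 12 * F * l := by
    linear_combination (-1 : MvPolynomial (Fin r) ℂ) * h13
  have hFp : Prime F := hirr.prime
  have hdeg : F.totalDegree = 3 := hF.totalDegree hirr.ne_zero
  have hsmall : ∀ q : MvPolynomial (Fin r) ℂ, q.totalDegree ≤ 2 → F ∣ q → q = 0 := by
    rintro q hq ⟨g, rfl⟩
    by_contra hne
    have hg : g ≠ 0 := right_ne_zero_of_mul hne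
    rw [totalDegree_mul_of_isDomain hirr.ne_zero hg, hdeg] at hq
    omega
  have hdvd : F ∣ (3 * b - m) * (3 * b + m) := by
    rw [hprod]
    exact ⟨12 * l, by ring⟩
  have hzero : (12 * F * l : MvPolynomial (Fin r) ℂ) = 0 := by
    rw [← hprod]
    rcases hFp.dvd_or_dvd hdvd with h | h
    · rw [hsmall _ ((totalDegree_sub _ _).trans (max_le h3b hmd)) h, zero_mul]
    · rw [hsmall _ ((totalDegree_add _ _).trans (max_le h3b hmd)) h, mul_zero]
  have h12 : (12 : MvPolynomial (Fin r) ℂ) ≠ 0 := by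
    rw [show (12 : MvPolynomial (Fin r) ℂ) = C 12 from (map_ofNat C 12).symm]
    intro h
    have := C_injective _ _ (h.trans C_0.symm)
    norm_num at this
  have hl0 : l = 0 := by
    rcases mul_eq_zero.1 hzero with h | h
    · exact absurd h (mul_ne_zero h12 hirr.ne_zero)
    · exact h
  apply hp
  apply hsm
  intro i
  have e1 : eval p (pderiv i F) = 3 * Bg T (fun a => if a = i then (1 : ℂ) else 0) p p := by
    rw [hFT]
    exact pderiv_frmG (R := ℂ) hT i p
  have e2 : aeval (fun a => if a = i then (1 : ℂ) else 0) l =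
      Bg T (fun a => if a = i then (1 : ℂ) else 0) p p := by
    rw [hl, map_Bg]
    congr 1
    · funext a
      rw [aeval_X]
    · funext a
      rw [hP]
      simp
    · funext a
      rw [hP]
      simp
  rw [e1, ← e2, hl0, map_zero, mul_zero]

end

end Pool.Agent.Y624.LI
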