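import Pool.Agent.Y201.LI.Stm5
import Pool.Agent.Y692.LI.Gen

/-! # Project LI, job ODD: a place of odd ramification index and odd residue degree -/

set_option autoImplicit false

namespace Pool.Agent.Y624.LI

open Module IsDedekindDomain IsLocalRing IntermediateField Pool.Agent.Y692.LI

noncomputable section

section

variable {A N : Type} [CommRing A] [Field N] [Algebra A N]
  [IsDedekindDomain (integralClosure A N)]
  [IsFractionRing (integralClosure A N) N]

lemma mem_center' (v : HeightOneSpectrum (integralClosure A N)) (s : integralClosure A N) :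
    s ∈ v.asIdeal ↔ (s : N) ∈ (v.valuation N).valuationSubring.nonunits := by
  have h1 : (v.valuation N) (s : N) < 1 ↔ s ∈ v.asIdeal :=
    HeightOneSpectrum.valuation_lt_one_iff_mem (K := N) v s
  rw [← h1, ValuationSubring.mem_nonunits_iff_or, Valuation.mem_valuationSubring_iff, map_inv₀]
  by_cases h0 : (s : N) = 0
  · simp [h0]
  · have h2 : (v.valuation N) (s : N) ≠ 0 := (Valuation.ne_zero_iff _).2 h0
    rw [or_iff_right h0, not_le, one_lt_inv₀ (zero_lt_iff.2 h2)]

/-- the residue degree -/
lemma deg_res' (p : Ideal A) [p.IsMaximal] (v : HeightOneSpectrum (integralClosure A N))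
    [v.asIdeal.LiesOver p]
    (h : ∀ a : A, algebraMap A N a ∈ (v.valuation N).valuationSubring) :
    Ideal.inertiaDeg' p v.asIdeal =
      finrank (psi (v.valuation N).valuationSubring h (residue _)).range
        (ResidueField (v.valuation N).valuationSubring) := by
  set O := (v.valuation N).valuationSubring with hO
  set ρ : O →+* ResidueField O := residue _ with hρd
  have hρ : Function.Surjective ρ := residue_surjective
  have hker : RingHom.ker (ρ.comp (iota O h)) = v.asIdeal := by
    ext s
    rw [RingHom.mem_ker, mem_center' v, RingHom.comp_apply, rho_eq_zero ρ hρ]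
    rfl
  have hmax : v.asIdeal.IsMaximal := v.isPrime.isMaximal v.ne_bot
  have hsurj : Function.Surjective (ρ.comp (iota O h)) := by
    intro y
    obtain ⟨a, rfl⟩ := hρ y
    have ha : (v.valuation N) (a : N) ≤ 1 := by
      rw [← Valuation.mem_valuationSubring_iff]
      exact a.2
    obtain ⟨n, d, hnd⟩ := v.exists_primeCompl_mul_eq_of_integer (a : N) ha
    obtain ⟨t, ht⟩ := Ideal.Quotient.exists_inv (I := v.asIdeal)
      (a := Ideal.Quotient.mk v.asIdeal (d : integralClosure A N))
      (by rw [Ne, Ideal.Quotient.eq_zero_iff_mem]; exact d.2)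
    obtain ⟨t, rfl⟩ := Ideal.Quotient.mk_surjective t
    rw [← map_mul, ← map_one (Ideal.Quotient.mk v.asIdeal), Ideal.Quotient.eq] at ht
    refine ⟨n * t, ?_⟩
    have h1 : ρ.comp (iota O h) ((d : integralClosure A N) * t) = 1 := by
      rw [← sub_eq_zero, ← map_one (ρ.comp (iota O h)), ← map_sub, ← RingHom.mem_ker, hker]
      exact ht
    have h2 : iota O h n = a * iota O h d := Subtype.ext hnd.symm
    have h3 : ρ.comp (iota O h) n = ρ a * ρ.comp (iota O h) d := by
      rw [RingHom.comp_apply, h2, map_mul]
      rfl
    rw [map_mul, h3, mul_assoc, ← map_mul, h1, mul_one]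
  let j : (integralClosure A N ⧸ v.asIdeal) ≃+* ResidueField O :=
    (Ideal.quotEquivOfEq hker.symm).trans (RingHom.quotientKerEquivOfSurjective hsurj)
  have hj : ∀ s, j (Ideal.Quotient.mk _ s) = ρ.comp (iota O h) s := fun s => rfl
  rw [Ideal.inertiaDeg'_algebraMap]
  let _ : Algebra (A ⧸ p) (ResidueField O) :=
    (j.toRingHom.comp (algebraMap (A ⧸ p)
      (integralClosure A N ⧸ v.asIdeal))).toAlgebra
  have e1 : finrank (A ⧸ p) (integralClosure A N ⧸ v.asIdeal) =
      finrank (A ⧸ p) (ResidueField O) :=
    Algebra.finrank_eq_of_equiv_equiv (RingEquiv.refl _) j rfl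
  have hal : ∀ a : A, algebraMap (A ⧸ p) (ResidueField O) (Ideal.Quotient.mk _ a) =
      psi O h ρ a := fun a => rfl
  rw [e1]
  refine finrank_of_range ?_ ?_ ?_
  · let _ : Field (A ⧸ p) := Ideal.Quotient.field _
    exact (algebraMap (A ⧸ p) (ResidueField O)).injective
  · exact Subtype.val_injective
  · ext y
    constructor
    · rintro ⟨a, rfl⟩
      obtain ⟨a, rfl⟩ := Ideal.Quotient.mk_surjective a
      rw [hal]
      exact ⟨⟨_, a, rfl⟩, rfl⟩
    · rintro ⟨⟨_, a, rfl⟩, rfl⟩
      exact ⟨Ideal.Quotient.mk _ a, rfl⟩

end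

section

variable {A : Type} (K : Type) {N : Type} [CommRing A] [IsDedekindDomain A]
  [Field K] [Field N]
  [Algebra A K] [IsFractionRing A K] [Algebra K N] [Algebra A N] [IsScalarTower A K N]
  [FiniteDimensional K N] [Algebra.IsSeparable K N]

/-- over a principal prime an extension of odd degree has a place of odd ramification index and
odd residue degree -/
theorem exists_place (t : A) (ht : t ≠ 0) (hp : (Ideal.span {t} : Ideal A).IsMaximal)
    (hodd : Odd (finrank K N)) :
    ∃ (w : Valuation N (WithZero (Multiplicative ℤ)))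
      (h : ∀ a : A, algebraMap A N a ∈ w.valuationSubring),
      Odd (-WithZero.log (w (algebraMap A N t))) ∧ 0 < -WithZero.log (w (algebraMap A N t)) ∧
      Odd (finrank (psi w.valuationSubring h (residue _)).range
        (ResidueField w.valuationSubring)) := by
  classical
  have i1 : IsDedekindDomain (integralClosure A N) := integralClosure.isDedekindDomain A K N
  have i2 : IsFractionRing (integralClosure A N) N :=
    integralClosure.isFractionRing_of_finite_extension K N
  have i3 : Module.Finite A (integralClosure A N) := IsIntegralClosure.finite A K N _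
  have hinj : Function.Injective (algebraMap A N) := by
    rw [IsScalarTower.algebraMap_eq A K N]
    exact (algebraMap K N).injective.comp (IsFractionRing.injective A K)
  have i4 : Module.IsTorsionFree A N := Module.isTorsionFree_iff_algebraMap_injective.2 hinj
  have htN : algebraMap A N t ≠ 0 := fun h => ht (hinj (by rw [h, map_zero]))
  set p : Ideal A := Ideal.span {t} with hpd
  have hm0 : p ≠ ⊥ := by
    intro h
    rw [hpd, Ideal.span_singleton_eq_bot] at h
    exact ht h
  have key := Ideal.sum_ramification_inertia (integralClosure A N) K N (p := p) hm0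
  have hex : ∃ P ∈ IsDedekindDomain.primesOverFinset p (integralClosure A N),
      Odd (Ideal.ramificationIdx' p P * Ideal.inertiaDeg' p P) := by
    by_contra hc
    push Not at hc
    have h1 : Even (∑ P ∈ IsDedekindDomain.primesOverFinset p (integralClosure A N),
        Ideal.ramificationIdx' p P * Ideal.inertiaDeg' p P) :=
      Finset.even_sum _ fun P hP => Nat.not_odd_iff_even.1 (hc P hP)
    rw [key] at h1
    exact (Nat.not_even_iff_odd.2 hodd) h1
  obtain ⟨P, hP, hPo⟩ := hex
  rw [IsDedekindDomain.mem_primesOverFinset_iff hm0] at hP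
  obtain ⟨hP1, hP2⟩ := hP
  have hP0 : P ≠ ⊥ := Ideal.ne_bot_of_liesOver_of_ne_bot hm0 P
  let v : HeightOneSpectrum (integralClosure A N) := ⟨P, hP1, hP0⟩
  have hvl : v.asIdeal.LiesOver p := hP2
  have hA : ∀ a : A, algebraMap A N a ∈ (v.valuation N).valuationSubring := fun a =>
    v.valuation_le_one (K := N) (algebraMap A (integralClosure A N) a)
  obtain ⟨he, hf⟩ := Nat.odd_mul.1 hPo
  -- the value of `t`
  have hv1 : v.valuation N (algebraMap A N t) =
      v.intValuation (algebraMap A (integralClosure A N) t) := by
    rw [← HeightOneSpectrum.valuation_of_algebraMap (K := N)]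
    rfl
  have hv0 : v.valuation N (algebraMap A N t) ≠ 0 := (Valuation.ne_zero_iff _).2 htN
  have hle : 0 ≤ -WithZero.log (v.valuation N (algebraMap A N t)) := by
    have h1 : v.valuation N (algebraMap A N t) ≤ 1 := hA t
    have h2 := (WithZero.log_le_log hv0 one_ne_zero).2 h1
    rw [WithZero.log_one] at h2
    omega
  obtain ⟨n, hn⟩ := Int.eq_ofNat_of_zero_le hle
  have hval : v.intValuation (algebraMap A (integralClosure A N) t) =
      WithZero.exp (-(n : ℤ)) := by
    rw [← hv1, ← WithZero.exp_log hv0, ← hn, neg_neg]
  have hmem : ∀ m : ℕ, Ideal.map (algebraMap A (integralClosure A N)) p ≤ P ^ m ↔ m ≤ n := by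
    intro m
    rw [hpd, Ideal.map_span, Set.image_singleton, Ideal.span_singleton_le_iff_mem]
    have h1 : algebraMap A (integralClosure A N) t ∈ P ^ m ↔
        v.intValuation (algebraMap A (integralClosure A N) t) ≤ WithZero.exp (-(m : ℤ)) :=
      (HeightOneSpectrum.intValuation_le_pow_iff_mem v _ m).symm
    rw [h1, hval, WithZero.exp_le_exp]
    omega
  have hen : Ideal.ramificationIdx' p P = n :=
    Ideal.ramificationIdx'_spec ((hmem n).2 le_rfl) (fun h => by
      have := (hmem (n + 1)).1 h
      omega)
  rw [hen] at he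
  refine ⟨v.valuation N, hA, ?_, ?_, ?_⟩
  · rw [hn]
    exact_mod_cast he
  · rw [hn]
    exact_mod_cast he.pos
  · rw [← deg_res' p v hA]
    exact hf

end

open scoped IntermediateField.algebraAdjoinAdjoin in
theorem odd : Pool.Agent.Y201.LI.S_ODD := by
  classical
  intro N _ _ K₁ s hs hodd
  -- the polynomial ring
  let g : Polynomial K₁ →+* Algebra.adjoin K₁ {s} :=
    (Polynomial.aeval s : Polynomial K₁ →ₐ[K₁] N).toRingHom.codRestrict (Algebra.adjoin K₁ {s})
      (fun f => Polynomial.aeval_mem_adjoin_singleton K₁ s)
  have hgv : ∀ f, ((g f : Algebra.adjoin K₁ {s}) : N) = Polynomial.aeval s f := fun f => rfl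
  have hgs : Function.Surjective g := by
    intro a
    have h1 : (a : N) ∈ (Polynomial.aeval s : Polynomial K₁ →ₐ[K₁] N).range := by
      rw [← Algebra.adjoin_singleton_eq_range_aeval]
      exact a.2
    obtain ⟨f, hf⟩ := h1
    exact ⟨f, Subtype.ext hf⟩
  have hgi : Function.Injective g := by
    intro a b hab
    apply transcendental_iff_injective.1 hs
    rw [← hgv, ← hgv, hab]
  have j1 : IsPrincipalIdealRing (Algebra.adjoin K₁ {s}) := IsPrincipalIdealRing.of_surjective g hgs
  have j2 : IsDedekindDomain (Algebra.adjoin K₁ {s}) := inferInstance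
  let t : Algebra.adjoin K₁ {s} := g Polynomial.X
  have htv : (t : N) = s := by
    rw [hgv, Polynomial.aeval_X]
  have htN : algebraMap (Algebra.adjoin K₁ {s}) N t = s := htv
  have hirr : Irreducible t := by
    have h1 : Irreducible (RingEquiv.ofBijective g ⟨hgi, hgs⟩ (Polynomial.X : Polynomial K₁)) :=
      (MulEquiv.irreducible_iff (RingEquiv.ofBijective g ⟨hgi, hgs⟩)).2 Polynomial.irreducible_X
    exact h1
  have hmax : (Ideal.span {t} : Ideal (Algebra.adjoin K₁ {s})).IsMaximal :=
    PrincipalIdealRing.isMaximal_of_irreducible hirr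
  have c1 : CharZero N := charZero_of_injective_algebraMap (algebraMap ℂ N).injective
  have c2 : CharZero (adjoin K₁ {s}) := inferInstance
  have j3 : FiniteDimensional (adjoin K₁ {s}) N := Module.finite_of_finrank_pos hodd.pos
  have j4 : Algebra.IsSeparable (adjoin K₁ {s}) N := inferInstance
  obtain ⟨w, h, ho, hpos, hodd2⟩ := exists_place (adjoin K₁ {s}) t hirr.ne_zero hmax hodd
  rw [htN] at ho hpos
  have hK : ∀ a ∈ K₁, a ∈ w.valuationSubring := fun a ha =>
    h (algebraMap K₁ (Algebra.adjoin K₁ {s}) ⟨a, ha⟩)
  have hC : ∀ c : ℂ, algebraMap ℂ N c ∈ w.valuationSubring := fun c =>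
    hK _ (K₁.algebraMap_mem c)
  let κ : Type := ResidueField w.valuationSubring
  let ι₀ : ℂ →+* κ := (residue w.valuationSubring).comp
    ((algebraMap ℂ N).codRestrict w.valuationSubring hC)
  let ic : Algebra ℂ κ := ι₀.toAlgebra
  have hw0 : ∀ a : N, a ≠ 0 → w a ≠ 0 := fun a ha => (Valuation.ne_zero_iff _).2 ha
  have hws : s ≠ 0 := by
    rintro rfl
    rw [map_zero, WithZero.log_zero] at hpos
    omega
  let D : Pool.Agent.Y201.LI.Dv N κ :=
    { ord := fun a => -WithZero.log (w a)
      O := w.valuationSubring.toSubring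
      ρ := residue w.valuationSubring
      ord_mul := by
        intro a b ha hb
        rw [map_mul, WithZero.log_mul (hw0 a ha) (hw0 b hb)]
        ring
      mem := by
        intro a ha
        have h1 : w a ≤ 1 ↔ WithZero.log (w a) ≤ WithZero.log 1 :=
          (WithZero.log_le_log (hw0 a ha) one_ne_zero).symm
        rw [WithZero.log_one] at h1
        have h2 : a ∈ w.valuationSubring.toSubring ↔ w a ≤ 1 := Iff.rfl
        rw [h2, h1]
        omega
      ker := by
        intro a ha
        have h1 : (residue w.valuationSubring ⟨a, ha⟩ = 0) ↔ w a < 1 := by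
          rw [rho_eq_zero (residue w.valuationSubring) residue_surjective,
            ValuationSubring.mem_nonunits_iff_or, Valuation.mem_valuationSubring_iff, map_inv₀]
          by_cases h0 : a = 0
          · simp [h0]
          · rw [or_iff_right h0, not_le, one_lt_inv₀ (zero_lt_iff.2 (hw0 a h0))]
        rw [h1]
        by_cases h0 : a = 0
        · simp [h0]
        · rw [or_iff_right h0]
          have h2 : w a < 1 ↔ WithZero.log (w a) < WithZero.log 1 :=
            (WithZero.log_lt_log (hw0 a h0) one_ne_zero).symm
          rw [WithZero.log_one] at h2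
          rw [h2]
          omega
      const := fun c hc => rfl }
  let ψ : K₁ →ₐ[ℂ] κ :=
    { toRingHom := (residue w.valuationSubring).comp
        ((algebraMap K₁ N).codRestrict w.valuationSubring (fun a => hK a.1 a.2))
      commutes' := fun c => rfl }
  have hψ : ∀ (a : N) (ha : a ∈ K₁), ψ ⟨a, ha⟩ = residue w.valuationSubring ⟨a, hK a ha⟩ :=
    fun a ha => rfl
  refine ⟨κ, inferInstance, ic, D, ψ.fieldRange, ho, hpos, ?_, ?_, ?_⟩
  · intro a ha
    exact ⟨hK a ha, ⟨⟨a, ha⟩, rfl⟩⟩
  · rintro b ⟨a, rfl⟩
    exact ⟨a.1, a.2, hK a.1 a.2, rfl⟩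
  · have h1 : finrank ψ.fieldRange κ =
        finrank (psi w.valuationSubring h (residue w.valuationSubring)).range κ := by
      refine finrank_of_range Subtype.val_injective Subtype.val_injective ?_
      ext y
      constructor
      · rintro ⟨⟨_, a, rfl⟩, rfl⟩
        exact ⟨⟨_, algebraMap K₁ (Algebra.adjoin K₁ {s}) a, rfl⟩, rfl⟩
      · rintro ⟨⟨_, a, rfl⟩, rfl⟩
        obtain ⟨f, rfl⟩ := hgs a
        refine ⟨⟨_, f.coeff 0, rfl⟩, ?_⟩
        have h2 : psi w.valuationSubring h (residue w.valuationSubring) t = 0 := by
          rw [psi_apply, rho_eq_zero (residue w.valuationSubring) residue_surjective]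
          show algebraMap (Algebra.adjoin K₁ {s}) N t ∈ _
          rw [htN, ValuationSubring.mem_nonunits_iff_or, Valuation.mem_valuationSubring_iff,
            map_inv₀]
          right
          rw [not_le, one_lt_inv₀ (zero_lt_iff.2 (hw0 s hws))]
          have h3 := (WithZero.log_lt_log (hw0 s hws) one_ne_zero (G := ℤ)).1
          apply h3
          rw [WithZero.log_one]
          omega
        have h4 : psi w.valuationSubring h (residue w.valuationSubring) (g f) =
            psi w.valuationSubring h (residue w.valuationSubring)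
              (g (Polynomial.C (f.coeff 0))) := by
          conv_lhs => rw [← Polynomial.divX_mul_X_add f]
          rw [map_add, map_mul, map_add, map_mul]
          show _ * psi w.valuationSubring h (residue w.valuationSubring) t + _ = _
          rw [h2, mul_zero, zero_add]
        show _ = psi w.valuationSubring h (residue w.valuationSubring) (g f)
        rw [h4]
        show ψ (f.coeff 0) = _
        have h5 : g (Polynomial.C (f.coeff 0)) =
            algebraMap K₁ (Algebra.adjoin K₁ {s}) (f.coeff 0) := by
          apply Subtype.ext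
          rw [hgv, Polynomial.aeval_C]
          rfl
        rw [h5]
        rfl
    rw [h1]
    exact hodd2

end

end Pool.Agent.Y624.LI
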